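import Pool.Agent.W945.Pw.Stm2

/-!
# Project PW, part TLEN: separators of graphs laid out in `ℤ ^ d` with total wire length `L`
-/

set_option autoImplicit false

namespace Pool.Agent.W2.Pw.TLEN

open Pool.Agent.W945.Pw

/-- the number of integers separating two integers is at most their distance -/
theorem card_sep (a b x y : ℤ) :
    ((Finset.Ioo a b).filter (fun h => (x < h ∧ h ≤ y) ∨ (y < h ∧ h ≤ x))).card ≤
      (x - y).natAbs := by
  have hsub : (Finset.Ioo a b).filter (fun h => (x < h ∧ h ≤ y) ∨ (y < h ∧ h ≤ x)) ⊆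
      Finset.Ioc (min x y) (max x y) := by
    intro h hh
    rw [Finset.mem_filter] at hh
    rw [Finset.mem_Ioc]
    omega
  refine (Finset.card_le_card hsub).trans ?_
  rw [Int.card_Ioc]
  omega

theorem main : TLEN.Stm := by
  classical
  intro V _ _ R d L hd ⟨pos, E, hinj, hRE, hlenL⟩ W hW2
  have hL0 : 0 ≤ L := le_trans (Finset.sum_nonneg fun p _ => by positivity) hlenL
  have hNpos : 0 < W.card := by omega
  have hW : W.Nonempty := Finset.card_pos.1 hNpos
  set N : ℝ := (W.card : ℝ) with hN
  have hN0 : 0 < N := by rw [hN]; exact_mod_cast hNpos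
  have hN2 : 2 < N := by rw [hN]; exact_mod_cast hW2
  have hd0 : (0 : ℝ) < d := by exact_mod_cast hd
  have hd1 : (1 : ℝ) ≤ d := by exact_mod_cast hd
  set q : ℝ := 1 / (4 * d) with hq
  have hq0 : 0 < q := by positivity
  have hq1 : q < 1 := by
    rw [hq, div_lt_one (by positivity)]
    linarith
  have hQN : q * N < W.card := by
    rw [← hN]
    nlinarith
  have hQ0 : 0 ≤ q * N := by positivity
  choose a ha1 ha2 using fun i : Fin d =>
    Pool.Agent.W397.Pw.GRID.exists_low W hW (fun v => pos v i) (q * N) hQ0 hQN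
  choose b hb1 hb2 using fun i : Fin d =>
    Pool.Agent.W397.Pw.GRID.exists_high W hW (fun v => pos v i) (q * N) hQ0 hQN
  -- complement counts
  have hcompl : ∀ (i : Fin d) (h : ℤ), ((W.filter (fun v => pos v i < h)).card : ℝ) +
      ((W.filter (fun v => h ≤ pos v i)).card : ℝ) = N := by
    intro i h
    have h1 := Finset.card_filter_add_card_filter_not (s := W) (fun v => pos v i < h)
    have h2 : W.filter (fun v => ¬ pos v i < h) = W.filter (fun v => h ≤ pos v i) := by
      apply Finset.filter_congr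
      intro v _
      exact not_lt
    rw [h2] at h1
    rw [hN]
    exact_mod_cast h1
  -- the box
  have hbox1 : N / 2 ≤ ((W.filter (fun v => ∀ i, a i ≤ pos v i ∧ pos v i < b i)).card : ℝ) := by
    have hsub : W.filter (fun v => ¬ ∀ i, a i ≤ pos v i ∧ pos v i < b i) ⊆
        Finset.univ.biUnion (fun i : Fin d => W.filter (fun v => pos v i < a i) ∪
          W.filter (fun v => b i ≤ pos v i)) := by
      intro v hv
      rw [Finset.mem_filter] at hv
      obtain ⟨hvW, hv⟩ := hv
      push Not at hv
      obtain ⟨i, hi⟩ := hv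
      rw [Finset.mem_biUnion]
      refine ⟨i, Finset.mem_univ i, ?_⟩
      rw [Finset.mem_union, Finset.mem_filter, Finset.mem_filter]
      by_cases h1 : pos v i < a i
      · exact Or.inl ⟨hvW, h1⟩
      · exact Or.inr ⟨hvW, hi (by omega)⟩
    have h1 : ((W.filter (fun v => ¬ ∀ i, a i ≤ pos v i ∧ pos v i < b i)).card : ℝ) ≤
        ∑ i : Fin d, (2 * (q * N)) := by
      calc ((W.filter (fun v => ¬ ∀ i, a i ≤ pos v i ∧ pos v i < b i)).card : ℝ)
          ≤ ((Finset.univ.biUnion (fun i : Fin d => W.filter (fun v => pos v i < a i) ∪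
            W.filter (fun v => b i ≤ pos v i))).card : ℝ) := by
            exact_mod_cast Finset.card_le_card hsub
        _ ≤ ∑ i : Fin d, ((W.filter (fun v => pos v i < a i) ∪
            W.filter (fun v => b i ≤ pos v i)).card : ℝ) := by
            exact_mod_cast Finset.card_biUnion_le
        _ ≤ ∑ i : Fin d, (2 * (q * N)) := by
            apply Finset.sum_le_sum
            intro i _
            have h2 : ((W.filter (fun v => pos v i < a i) ∪
                W.filter (fun v => b i ≤ pos v i)).card : ℝ) ≤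
                ((W.filter (fun v => pos v i < a i)).card : ℝ) +
                ((W.filter (fun v => b i ≤ pos v i)).card : ℝ) := by
              exact_mod_cast Finset.card_union_le _ _
            have h3 := ha1 i
            have h4 := hb1 i
            linarith
    have h2 : ∑ i : Fin d, (2 * (q * N)) = N / 2 := by
      rw [Finset.sum_const, Finset.card_univ, Fintype.card_fin, nsmul_eq_mul, hq]
      field_simp
      norm_num
    have h3 := Finset.card_filter_add_card_filter_not (s := W)
      (fun v => ∀ i, a i ≤ pos v i ∧ pos v i < b i)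
    have h4 : ((W.filter (fun v => ∀ i, a i ≤ pos v i ∧ pos v i < b i)).card : ℝ) +
        ((W.filter (fun v => ¬ ∀ i, a i ≤ pos v i ∧ pos v i < b i)).card : ℝ) = N := by
      rw [hN]
      exact_mod_cast h3
    linarith
  have hbox2 : (W.filter (fun v => ∀ i, a i ≤ pos v i ∧ pos v i < b i)).card ≤
      ∏ i : Fin d, (b i - a i).toNat := by
    calc (W.filter (fun v => ∀ i, a i ≤ pos v i ∧ pos v i < b i)).card
        ≤ (Fintype.piFinset (fun i : Fin d => Finset.Ico (a i) (b i))).card := by
          apply Finset.card_le_card_of_injOn pos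
          · intro v hv
            rw [Finset.mem_coe, Finset.mem_filter] at hv
            rw [Finset.mem_coe, Fintype.mem_piFinset]
            intro i
            rw [Finset.mem_Ico]
            exact hv.2 i
          · exact hinj.injOn
      _ = ∏ i : Fin d, (b i - a i).toNat := by
          rw [Fintype.card_piFinset]
          apply Finset.prod_congr rfl
          intro i _
          exact Int.card_Ico _ _
  have hbox3 : N / 2 ≤ ∏ i : Fin d, ((b i - a i).toNat : ℝ) := by
    refine hbox1.trans ?_
    exact_mod_cast hbox2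
  -- some side is long
  set T : ℝ := (N / 2) ^ (1 / (d : ℝ)) with hT
  have hTd : T ^ d = N / 2 := by
    rw [hT, ← Real.rpow_natCast, ← Real.rpow_mul (by positivity)]
    have : 1 / (d : ℝ) * (d : ℝ) = 1 := by field_simp
    rw [this, Real.rpow_one]
  have hT1 : 1 < T := by
    rw [hT]
    apply Real.one_lt_rpow
    · linarith
    · positivity
  obtain ⟨i, hi⟩ : ∃ i : Fin d, T ≤ ((b i - a i).toNat : ℝ) := by
    by_contra hcon
    push Not at hcon
    have hNE : Nonempty (Fin d) := ⟨⟨0, by omega⟩⟩
    have hlt : ∏ i : Fin d, ((b i - a i).toNat : ℝ) < N / 2 := by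
      by_cases hz : ∃ i : Fin d, (b i - a i).toNat = 0
      · obtain ⟨i, hi⟩ := hz
        have h1 : ∏ i : Fin d, ((b i - a i).toNat : ℝ) = 0 :=
          Finset.prod_eq_zero (Finset.mem_univ i) (by rw [hi]; simp)
        rw [h1]
        linarith
      · push Not at hz
        have h1 : ∏ i : Fin d, ((b i - a i).toNat : ℝ) < ∏ _i : Fin d, T := by
          apply Finset.prod_lt_prod_of_nonempty
          · intro i _
            have := hz i
            have h0 : 0 < (b i - a i).toNat := by omega
            exact_mod_cast h0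
          · intro i _; exact hcon i
          · exact Finset.univ_nonempty
        rw [Finset.prod_const, Finset.card_univ, Fintype.card_fin, hTd] at h1
        exact h1
    linarith
  -- its length is at least two
  have hab2 : 2 ≤ b i - a i := by
    have h1 : (1 : ℝ) < ((b i - a i).toNat : ℝ) := lt_of_lt_of_le hT1 hi
    have h2 : 1 < (b i - a i).toNat := by exact_mod_cast h1
    omega
  have hcast : (((b i - a i).toNat : ℕ) : ℝ) = ((b i - a i : ℤ) : ℝ) := by
    have : (((b i - a i).toNat : ℕ) : ℤ) = b i - a i := Int.toNat_of_nonneg (by omega)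
    exact_mod_cast congrArg (fun z : ℤ => (z : ℝ)) this
  have hNd0 : 0 < N ^ (1 / (d : ℝ)) := Real.rpow_pos_of_pos hN0 _
  have hTN : N ^ (1 / (d : ℝ)) / 2 ≤ T := by
    rw [hT, Real.div_rpow hN0.le (by norm_num)]
    apply div_le_div_of_nonneg_left hNd0.le (by positivity)
    calc (2 : ℝ) ^ (1 / (d : ℝ)) ≤ 2 ^ (1 : ℝ) := by
          apply Real.rpow_le_rpow_of_exponent_le (by norm_num)
          rw [div_le_one hd0]
          exact hd1
      _ = 2 := Real.rpow_one _
  have hcard : (Finset.Ioo (a i) (b i)).card = (b i - a i - 1).toNat := Int.card_Ioo _ _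
  have hcardR : ((Finset.Ioo (a i) (b i)).card : ℝ) = ((b i - a i : ℤ) : ℝ) - 1 := by
    rw [hcard]
    have h1 : (((b i - a i - 1).toNat : ℕ) : ℤ) = b i - a i - 1 :=
      Int.toNat_of_nonneg (by omega)
    have h2 : (((b i - a i - 1).toNat : ℕ) : ℝ) = (((b i - a i - 1 : ℤ)) : ℝ) := by
      exact_mod_cast congrArg (fun z : ℤ => (z : ℝ)) h1
    rw [h2]
    push_cast
    ring
  have hm : N ^ (1 / (d : ℝ)) / 4 ≤ ((Finset.Ioo (a i) (b i)).card : ℝ) := by
    rw [hcardR]
    rw [hcast] at hi
    have h1 : (2 : ℝ) ≤ ((b i - a i : ℤ) : ℝ) := by exact_mod_cast hab2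
    linarith
  -- the separators
  let S : ℤ → Finset V := fun h => W.filter (fun u => pos u i < h ∧
    ∃ p ∈ E, (p.1 = u ∧ h ≤ pos p.2 i) ∨ (p.2 = u ∧ h ≤ pos p.1 i))
  let sep : ℤ → (V × V) → Prop := fun h p =>
    (pos p.1 i < h ∧ h ≤ pos p.2 i) ∨ (pos p.2 i < h ∧ h ≤ pos p.1 i)
  have hS : ∀ h, (S h).card ≤ (E.filter (fun p => sep h p)).card := by
    intro h
    have hsub : S h ⊆ (E.filter (fun p => sep h p)).image
        (fun p => if pos p.1 i < h then p.1 else p.2) := by
      intro u hu
      rw [Finset.mem_filter] at hu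
      obtain ⟨huW, hu1, p, hpE, hp⟩ := hu
      rw [Finset.mem_image]
      refine ⟨p, ?_, ?_⟩
      · rw [Finset.mem_filter]
        refine ⟨hpE, ?_⟩
        rcases hp with ⟨h1, h2⟩ | ⟨h1, h2⟩
        · left
          rw [h1]
          exact ⟨hu1, h2⟩
        · right
          rw [h1]
          exact ⟨hu1, h2⟩
      · rcases hp with ⟨h1, h2⟩ | ⟨h1, h2⟩
        · rw [if_pos (by rw [h1]; exact hu1)]
          exact h1
        · rw [if_neg (by omega)]
          exact h1
    exact (Finset.card_le_card hsub).trans Finset.card_image_le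
  have hsum : (∑ h ∈ Finset.Ioo (a i) (b i), ((S h).card : ℝ)) ≤ L := by
    have h1 : (∑ h ∈ Finset.Ioo (a i) (b i), (S h).card) ≤
        ∑ h ∈ Finset.Ioo (a i) (b i), (E.filter (fun p => sep h p)).card :=
      Finset.sum_le_sum fun h _ => hS h
    have h2 : (∑ h ∈ Finset.Ioo (a i) (b i), (E.filter (fun p => sep h p)).card) =
        ∑ p ∈ E, ((Finset.Ioo (a i) (b i)).filter (fun h => sep h p)).card := by
      simp only [Finset.card_filter]
      exact Finset.sum_comm
    have h3 : (∑ p ∈ E, ((Finset.Ioo (a i) (b i)).filter (fun h => sep h p)).card) ≤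
        ∑ p ∈ E, len pos p.1 p.2 := by
      apply Finset.sum_le_sum
      intro p _
      refine (card_sep (a i) (b i) (pos p.1 i) (pos p.2 i)).trans ?_
      exact Finset.le_sup (f := fun i => (pos p.1 i - pos p.2 i).natAbs) (Finset.mem_univ i)
    have h4 : (∑ h ∈ Finset.Ioo (a i) (b i), (S h).card) ≤ ∑ p ∈ E, len pos p.1 p.2 := by
      rw [h2] at h1
      exact h1.trans h3
    have h5 : (∑ h ∈ Finset.Ioo (a i) (b i), ((S h).card : ℝ)) ≤
        ∑ p ∈ E, (len pos p.1 p.2 : ℝ) := by
      exact_mod_cast h4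
    exact h5.trans hlenL
  obtain ⟨h, hh, hSh⟩ : ∃ h ∈ Finset.Ioo (a i) (b i),
      ((S h).card : ℝ) ≤ 4 * L * N ^ (-(1 / (d : ℝ))) := by
    by_contra hcon
    push Not at hcon
    have hne : (Finset.Ioo (a i) (b i)).Nonempty := by
      refine ⟨a i + 1, ?_⟩
      rw [Finset.mem_Ioo]
      omega
    have h1 : ∑ _h ∈ Finset.Ioo (a i) (b i), (4 * L * N ^ (-(1 / (d : ℝ)))) <
        ∑ h ∈ Finset.Ioo (a i) (b i), ((S h).card : ℝ) :=
      Finset.sum_lt_sum_of_nonempty hne hcon
    rw [Finset.sum_const, nsmul_eq_mul] at h1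
    have hK0 : 0 ≤ 4 * L * N ^ (-(1 / (d : ℝ))) := by positivity
    have h2 : N ^ (1 / (d : ℝ)) / 4 * (4 * L * N ^ (-(1 / (d : ℝ)))) = L := by
      have h3 : N ^ (1 / (d : ℝ)) * N ^ (-(1 / (d : ℝ))) = 1 := by
        rw [← Real.rpow_add hN0]
        simp
      calc N ^ (1 / (d : ℝ)) / 4 * (4 * L * N ^ (-(1 / (d : ℝ))))
          = L * (N ^ (1 / (d : ℝ)) * N ^ (-(1 / (d : ℝ)))) := by ring
        _ = L := by rw [h3, mul_one]
    have h3 := mul_le_mul_of_nonneg_right hm hK0
    rw [h2] at h3
    linarith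
  rw [Finset.mem_Ioo] at hh
  have hlow : q * N < ((W.filter (fun v => pos v i < h)).card : ℝ) := by
    have h1 := ha2 i
    have h2 : W.filter (fun v => pos v i < a i + 1) ⊆ W.filter (fun v => pos v i < h) := by
      intro v hv
      rw [Finset.mem_filter] at hv ⊢
      exact ⟨hv.1, by omega⟩
    have h3 : ((W.filter (fun v => pos v i < a i + 1)).card : ℝ) ≤
        ((W.filter (fun v => pos v i < h)).card : ℝ) := by
      exact_mod_cast Finset.card_le_card h2
    linarith
  have hhigh : q * N < ((W.filter (fun v => h ≤ pos v i)).card : ℝ) := hb2 i h hh.2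
  have hc := hcompl i h
  refine ⟨W.filter (fun v => pos v i < h) \ S h, S h, W.filter (fun v => h ≤ pos v i),
    ?_, ?_, ?_, ?_, hSh⟩
  · intro v
    constructor
    · intro hv
      by_cases h1 : pos v i < h
      · by_cases h2 : v ∈ S h
        · exact Or.inr (Or.inl h2)
        · exact Or.inl (Finset.mem_sdiff.2 ⟨Finset.mem_filter.2 ⟨hv, h1⟩, h2⟩)
      · exact Or.inr (Or.inr (Finset.mem_filter.2 ⟨hv, by omega⟩))
    · rintro (h1 | h1 | h1)
      · exact (Finset.mem_filter.1 (Finset.mem_sdiff.1 h1).1).1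
      · exact (Finset.mem_filter.1 h1).1
      · exact (Finset.mem_filter.1 h1).1
  · intro u hu v hv
    rw [Finset.mem_sdiff, Finset.mem_filter] at hu
    rw [Finset.mem_filter] at hv
    obtain ⟨⟨huW, hu1⟩, hu2⟩ := hu
    refine ⟨fun h4 => ?_, fun h4 => ?_, fun h4 => ?_⟩
    · rw [h4] at hu1
      omega
    · apply hu2
      rw [Finset.mem_filter]
      exact ⟨huW, hu1, (u, v), hRE u v h4, Or.inl ⟨rfl, hv.2⟩⟩
    · apply hu2
      rw [Finset.mem_filter]
      exact ⟨huW, hu1, (v, u), hRE v u h4, Or.inr ⟨rfl, hv.2⟩⟩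
  · have h1 : ((W.filter (fun v => pos v i < h) \ S h).card : ℝ) ≤
        ((W.filter (fun v => pos v i < h)).card : ℝ) := by
      exact_mod_cast Finset.card_le_card Finset.sdiff_subset
    linarith
  · linarith

end Pool.Agent.W2.Pw.TLEN
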